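import Mathlib
import Pool.Agent.H313RA.FO

/-!
The relation algebras of the `ℤ_p`-sets: not an elementary class, but first-order characterized up to
completeness.
-/

set_option autoImplicit false

namespace Pool.Agent.Results.MP_86f508_lc.FirstOrderCharacterization

open Pool.Agent.H313RA

/-- Let `p` be a prime. The class of the relation algebras of compatible relations of the `ℤ_p`-sets
is not axiomatized by first-order sentences. But one first-order sentence `φ` characterizes the
subalgebras of these algebras which contain all the atoms, and the class consists of the complete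
relation algebras which satisfy `φ`. -/
theorem result (p : ℕ) (hp : p.Prime) :
    (¬ ∃ T : Set (Fm 0), ∀ (B : Type) (_ : RelAlg B), InK p B ↔ ∀ φ ∈ T, φ.Holds B Fin.elim0) ∧
    ∃ φ : Fm 0, ∀ (B : Type) (_ : RelAlg B),
      (InStar p B ↔ φ.Holds B Fin.elim0) ∧ (InK p B ↔ Complete B ∧ φ.Holds B Fin.elim0) :=
  ⟨main1 p, Fm.goodF p, fun B _ => ⟨main3 p hp B, main2 p hp B⟩⟩

end Pool.Agent.Results.MP_86f508_lc.FirstOrderCharacterization
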